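import Pool.Agent.helper95.SP.SpecCH

/-!
# Project sp (MP_7800de_pr), part CH, module KGSB: gates with standard arms
-/

namespace TP.K

open DP MeasureTheory

theorem GSB (hBTH : BTH_stmt) (hN3I : N3I_stmt) (hLQ : LQ_stmt) : GSB_stmt := by
  obtain ⟨C, hC, i₁, h1⟩ := hBTH
  obtain ⟨C', α, hC', hα, i₂, h2⟩ := hN3I
  obtain ⟨-, -, -, hmono, -, hBF⟩ := hLQ
  -- the ratio
  obtain ⟨g, hg⟩ : ∃ g : ℕ, C' * (2 : ℝ) ^ (-(α * g)) ≤ 1 / (2 * C) := by
    have h3 : Filter.Tendsto (fun n : ℕ => ((2 : ℝ) ^ (-α)) ^ n) Filter.atTop (nhds 0) := by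
      apply tendsto_pow_atTop_nhds_zero_of_lt_one (by positivity)
      exact Real.rpow_lt_one_of_one_lt_of_neg one_lt_two (by linarith)
    have h4 : (0 : ℝ) < 1 / (2 * C) / C' := by positivity
    obtain ⟨g, hg⟩ := (h3.eventually_lt_const h4).exists
    refine ⟨g, ?_⟩
    have e : (2 : ℝ) ^ (-(α * g)) = ((2 : ℝ) ^ (-α)) ^ g := by
      rw [← Real.rpow_natCast, ← Real.rpow_mul (by norm_num)]
      congr 1
      ring
    rw [e]
    have := mul_lt_mul_of_pos_left hg hC'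
    rw [mul_div_cancel₀ _ hC'.ne'] at this
    exact this.le
  refine ⟨1 / (2 * C), by positivity, g + 4, max (max i₁ i₂) 7, ?_⟩
  intro x a b hx ha hab
  have ha1 : i₁ ≤ a := le_trans (le_trans (le_max_left _ _) (le_max_left _ _)) ha
  have ha2 : i₂ ≤ a := le_trans (le_trans (le_max_right _ _) (le_max_left _ _)) ha
  have ha3 : 7 ≤ a := le_trans (le_max_right _ _) ha
  have b1 := h1 x a b hx ha1 (by omega)
  have b2 := h2 x a b hx ha2 (by omega)
  have hsub : B4 x (a - 1) (b + 1) ⊆ F4 x a b :=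
    (hBF x (a - 1) (b + 1) hx (by omega) (by omega)).trans
      (hmono x (a - 1) a b (b + 1) (by omega) (by omega) (by omega))
  have hF0 : 0 ≤ Pr (F4 x a b) := measureReal_nonneg
  have hgab : C' * (2 : ℝ) ^ (-(α * ((b : ℝ) - a))) ≤ 1 / (2 * C) := by
    refine le_trans ?_ hg
    have h5 : (2 : ℝ) ^ (-(α * ((b : ℝ) - a))) ≤ (2 : ℝ) ^ (-(α * (g : ℝ))) := by
      apply Real.rpow_le_rpow_of_exponent_le one_le_two
      have h6 : (g : ℝ) ≤ (b : ℝ) - a := by
        have : (a + (g + 4) : ℝ) ≤ b := by exact_mod_cast hab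
        linarith
      have := mul_le_mul_of_nonneg_left h6 hα.le
      linarith
    exact mul_le_mul_of_nonneg_left h5 hC'.le
  have h7 : Pr (B4 x (a - 1) (b + 1)) ≤
      Pr ((Ev fun c => Gate c x (2 ^ a) (2 ^ b)) ∩ B4 x (a - 1) (b + 1)) +
        Pr (Ev fun c => Three c x (2 ^ a) (2 ^ b)) := by
    have h8 : B4 x (a - 1) (b + 1) ⊆
        ((Ev fun c => Gate c x (2 ^ a) (2 ^ b)) ∩ B4 x (a - 1) (b + 1)) ∪
          (Ev fun c => Three c x (2 ^ a) (2 ^ b)) := by
      intro w hw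
      by_cases h9 : w ∈ (Ev fun c => Three c x (2 ^ a) (2 ^ b))
      · exact Or.inr h9
      · exact Or.inl ⟨⟨hsub hw, h9⟩, hw⟩
    have : IsProbabilityMeasure P1 := by unfold P1; infer_instance
    exact (measureReal_mono h8).trans (measureReal_union_le _ _)
  have h10 : Pr (Ev fun c => Three c x (2 ^ a) (2 ^ b)) ≤ 1 / (2 * C) * Pr (F4 x a b) :=
    b2.trans (mul_le_mul_of_nonneg_right hgab hF0)
  have h11 : 1 / C * Pr (F4 x a b) ≤ Pr (B4 x (a - 1) (b + 1)) := by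
    rw [one_div, inv_mul_le_iff₀ hC]
    exact b1
  have h12 : 1 / C = 1 / (2 * C) + 1 / (2 * C) := by
    field_simp
    norm_num
  rw [h12, add_mul] at h11
  linarith

end TP.K
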