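import Pool.Agent.helper95.SP.SpecCH
import Pool.Agent.helper64.TP.Conv

/-!
# Project sp (MP_7800de_pr), part CH, module KGZ: gluing of weights
-/

namespace TP.K

open DP MeasureTheory

/-- a local weight is a finite combination of local events -/
theorem GZ_part (Z : (V → Bool) → ℝ) (A : Set V) (hZ : LocF Z A) (h0 : ∀ b, 0 ≤ Z b) :
    ∃ (ι : Type) (_ : Fintype ι) (X : ι → Set (V → Bool)) (z : ι → ℝ), (∀ s, 0 ≤ z s) ∧
      (∀ s, Loc (X s) A) ∧ ∀ b, Z b = ∑ s, (X s).indicator (fun _ => z s) b := by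
  classical
  obtain ⟨Λ, hΛ, h⟩ := hZ
  let X : ({v // v ∈ Λ} → Bool) → Set (V → Bool) := fun s => {b | ∀ v : {v // v ∈ Λ}, b (br v) = s v}
  let z : ({v // v ∈ Λ} → Bool) → ℝ := fun s => if hs : ∃ b, b ∈ X s then Z hs.choose else 0
  refine ⟨({v // v ∈ Λ} → Bool), inferInstance, X, z, ?_, ?_, ?_⟩
  · intro s
    simp only [z]
    split_ifs with hs
    · exact h0 _
    · exact le_rfl
  · intro s
    refine ⟨Λ, hΛ, ?_⟩
    intro b b' hb
    constructor
    · intro h1 v
      rw [← hb v v.2]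
      exact h1 v
    · intro h1 v
      rw [hb v v.2]
      exact h1 v
  · intro b
    rw [Finset.sum_eq_single (fun v : {v // v ∈ Λ} => b (br v))]
    · have hb : b ∈ X (fun v : {v // v ∈ Λ} => b (br v)) := fun v => rfl
      rw [Set.indicator_of_mem hb]
      have hs : ∃ b', b' ∈ X (fun v : {v // v ∈ Λ} => b (br v)) := ⟨b, hb⟩
      simp only [z]
      rw [dif_pos hs]
      apply h
      intro v hv
      exact (hs.choose_spec ⟨v, hv⟩).symm
    · intro s _ hs
      rw [Set.indicator_of_notMem]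
      intro hb
      exact hs (funext fun v => (hb v).symm)
    · intro h1
      exact absurd (Finset.mem_univ _) h1

theorem GZ_int {ι : Type} [Fintype ι] (X : ι → Set (V → Bool)) (z : ι → ℝ)
    (hX : ∀ s, MeasurableSet (X s)) (Z : (V → Bool) → ℝ)
    (hZ : ∀ b, Z b = ∑ s, (X s).indicator (fun _ => z s) b) (E : Set (V → Bool)) :
    EZ Z E = ∑ s, z s * Pr (X s ∩ E) := by
  have : IsProbabilityMeasure P1 := by unfold P1; infer_instance
  unfold EZ
  rw [show Z = fun b => ∑ s, (X s).indicator (fun _ => z s) b from funext hZ]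
  rw [integral_finset_sum]
  · refine Finset.sum_congr rfl fun s _ => ?_
    rw [integral_indicator_const _ (hX s), smul_eq_mul, mul_comm, measureReal_restrict_apply (hX s)]
    rfl
  · intro s _
    exact (integrable_const _).indicator (hX s)

theorem GZ (hGP : GP_stmt) : GZ_stmt := by
  obtain ⟨c₄, hc₄, i₁, h⟩ := hGP
  refine ⟨c₄, hc₄, i₁, ?_⟩
  intro x D Z W i n hx hi hin hD hZ hW hZ0 hW0
  obtain ⟨ι, _, X, z, hz0, hXl, hZe⟩ := GZ_part Z _ hZ hZ0
  obtain ⟨κ, _, Y, w, hw0, hYl, hWe⟩ := GZ_part W _ hW hW0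
  have hXm : ∀ s, MeasurableSet (X s) := fun s => (hXl s).measurableSet
  have hYm : ∀ s, MeasurableSet (Y s) := fun s => (hYl s).measurableSet
  have hprod : ∀ b, Z b * W b =
      ∑ p : ι × κ, (X p.1 ∩ Y p.2).indicator (fun _ => z p.1 * w p.2) b := by
    intro b
    rw [hZe, hWe, Finset.sum_mul_sum, Fintype.sum_prod_type]
    refine Finset.sum_congr rfl fun s _ => Finset.sum_congr rfl fun t _ => ?_
    rw [Set.inter_indicator_mul]
  rw [GZ_int X z hXm Z hZe, GZ_int Y w hYm W hWe,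
    GZ_int (fun p : ι × κ => X p.1 ∩ Y p.2) (fun p => z p.1 * w p.2)
      (fun p => (hXm p.1).inter (hYm p.2)) (fun b => Z b * W b) hprod]
  rw [Finset.sum_mul_sum, Finset.mul_sum, Fintype.sum_prod_type]
  refine Finset.sum_le_sum fun s _ => ?_
  rw [Finset.mul_sum]
  refine Finset.sum_le_sum fun t _ => ?_
  have h1 := h x D (X s) (Y t) i n hx hi hin hD (hXl s) (hYl t)
  rw [← Set.inter_assoc] at h1
  calc c₄ * (z s * Pr (X s ∩ Ev fun c => Std c 4 true x (2 ^ (i + 1)) D) *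
        (w t * Pr (Y t ∩ B4 x (i + 2) n)))
      = (z s * w t) * (c₄ * (Pr (X s ∩ Ev fun c => Std c 4 true x (2 ^ (i + 1)) D) *
          Pr (Y t ∩ B4 x (i + 2) n))) := by ring
    _ ≤ (z s * w t) * Pr (X s ∩ Y t ∩ Ev fun c => Std c 4 true x (2 ^ n) D) :=
        mul_le_mul_of_nonneg_left h1 (mul_nonneg (hz0 s) (hw0 t))

end TP.K
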