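import Pool.Agent.helper95.SP.SpecCH

/-!
# Project sp (MP_7800de_pr), part CH, module KSX3: separation step for one configuration
-/

namespace TP.K

open DP MeasureTheory

theorem SX3_Q (hB : Bzero_stmt) {F : Set (V → Bool)} {A : Set V} (hF : Loc F A) :
    Q (fun _ => 0) F F = Pr F := by
  have := hB (fun _ => 0) F F A hF hF (fun v _ => rfl)
  rwa [Set.inter_self] at this

theorem SX3_fam (hGXF : GXF_stmt) (x : V) (n : ℕ) (D : Dat) :
    Loc (Ev fun c => Fam c 4 true x n D) (box x n) := by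
  have := hGXF 4 true x n D (Or.inl rfl)
  simpa [HS] using this

theorem SX3_std (hGXL : GXL_stmt) (x : V) (n : ℕ) (D : Dat) :
    Loc (Ev fun c => Std c 4 true x n D) (box x n) := by
  have h : ∀ k, Loc (Ev fun c => MrkC c 4 true x n D (zpt x n) (n / 64) (n / 8) k) (box x n) := by
    intro k
    refine (hGXL 4 true x n D (zpt x n) (n / 64) (n / 8) k (Or.inl rfl)).1.mono ?_
    intro v hv
    have := hv.1
    simpa [HS] using this
  have e : (Ev fun c => Std c 4 true x n D) =
      (Ev fun c => MrkC c 4 true x n D (zpt x n) (n / 64) (n / 8) true) ∩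
        (Ev fun c => MrkC c 4 true x n D (zpt x n) (n / 64) (n / 8) false) := rfl
  rw [e]
  have := (h true).inter (h false)
  rwa [Set.union_self] at this

theorem SX3 (hSE3 : SE3_stmt) (hB : Bzero_stmt) (hGXL : GXL_stmt) (hGXF : GXF_stmt) : SX3_stmt := by
  intro ε hε
  obtain ⟨C, hC, i₁, h⟩ := hSE3 ε hε
  refine ⟨C, hC, i₁, ?_⟩
  intro x D X i hx hi hD hX hrestr
  have hY : Loc (X ∩ Ev fun c => Fam c 4 true x (2 ^ (i - 1)) D) (box x (2 ^ (i - 1))) := by
    have := hX.inter (SX3_fam hGXF x (2 ^ (i - 1)) D)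
    rwa [Set.union_self] at this
  have a := h 4 true (fun _ => 0) x D X (X ∩ Ev fun c => Fam c 4 true x (2 ^ (i - 1)) D) i
    (Or.inr rfl) (fun v => ⟨le_rfl, zero_le_one⟩) hx hi (by simpa using hD)
    (by simpa [Extra] using hX) (by simpa using hY) (by
      rintro b ⟨hb1, hb2⟩
      exact ⟨hb1, hrestr _ hb2⟩)
  have e : nx true (2 ^ i) = 2 ^ (i + 1) := by
    simp [nx, pow_succ]
    ring
  rw [e, SX3_Q hB (hX.inter (SX3_fam hGXF x (2 ^ i) D)),
    SX3_Q hB (hX.inter (SX3_std hGXL x (2 ^ (i + 1)) D)), SX3_Q hB hY] at a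
  exact a

end TP.K
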